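import Pool.Agent.H.MP_e82249_co.C

set_option autoImplicit false

namespace Pool.Agent.Results.MP_e82249_co.Join

def join {V : Type} (G : SimpleGraph V) (p : ℕ) : SimpleGraph (V ⊕ Fin p) :=
  SimpleGraph.fromRel fun x y => ∀ a b, x = Sum.inl a → y = Sum.inl b → G.Adj a b

noncomputable def cnt {W : Type} (H : SimpleGraph W) (L : W → Finset ℕ) : ℕ :=
  Nat.card {f : W → ℕ // (∀ v, f v ∈ L v) ∧ ∀ x y, H.Adj x y → f x ≠ f y}

noncomputable def Pl {W : Type} (H : SimpleGraph W) (m : ℕ) : ℕ :=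
  sInf {c | ∃ L : W → Finset ℕ, (∀ v, (L v).card = m) ∧ cnt H L = c}

open Pool.Agent.H.MP_e82249_co

lemma cnt_eq {W : Type} [Fintype W] [DecidableEq W] (H : SimpleGraph W) (L : W → Finset ℕ) :
    cnt H L = (col H L).card := by
  rw [cnt, Nat.card_congr (Equiv.subtypeEquivRight fun f => mem_col.symm)]
  simp

lemma P_eq {W : Type} [Fintype W] [DecidableEq W] (H : SimpleGraph W) (m : ℕ) :
    Nat.card (H.Coloring (Fin m)) = P H m := by
  rw [P, ← cnt_eq]
  exact Nat.card_congr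
    { toFun := fun c => ⟨fun v => c v, fun v => Finset.mem_range.2 (c v).2,
        fun x y a e => c.valid a (Fin.ext e)⟩
      invFun := fun f => SimpleGraph.Coloring.mk (fun v => ⟨f.1 v, Finset.mem_range.1 (f.2.1 v)⟩)
        fun a e => f.2.2 _ _ a (congrArg Fin.val e)
      left_inv := fun _ => rfl
      right_inv := fun _ => rfl }

theorem result (V : Type) [Finite V] (G : SimpleGraph V) :
    ∃ p₀ : ℕ, 1 ≤ p₀ ∧ ∀ p, p₀ ≤ p → ∀ m : ℕ,
      Pl (join G p) m = Nat.card ((join G p).Coloring (Fin m)) := by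
  classical
  have := Fintype.ofFinite V
  obtain ⟨a, ha⟩ := Filter.eventually_atTop.1 (main G)
  refine ⟨a + 1, by omega, fun p hp m => ?_⟩
  rw [P_eq]
  have h : P (join G p) m ∈ {c | ∃ L : V ⊕ Fin p → Finset ℕ,
      (∀ v, (L v).card = m) ∧ cnt (join G p) L = c} :=
    ⟨fun _ => Finset.range m, fun _ => Finset.card_range m, cnt_eq _ _⟩
  refine le_antisymm (Nat.sInf_le h) (le_csInf ⟨_, h⟩ ?_)
  rintro _ ⟨L, hL, rfl⟩
  rw [cnt_eq]
  exact ha p (by omega) m L hL

end Pool.Agent.Results.MP_e82249_co.Join
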